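import Pool.Agent.N319.LE.Stm

/-!
The kernel of a real-bilinear operator on rapidly decreasing sequences satisfies the hypotheses of the
abstract well-posedness theorem.
-/

open Set Filter Topology

namespace Pool.Agent.N79.LE

open Pool.Agent.H356R3.NS (C3 pw pw_pos one_le_pw l1 l1_neg l1_nonneg)
open Pool.Agent.Y5.E (Adm Sk bl)
open Pool.Agent.N319.LE

/-- indices -/
abbrev I0 := Fq × Fin 3

/-- squared weighted norms -/
noncomputable def W (m : ℕ) (z : I0 → ℝ) : ℝ := ∑' a : I0, (pw a.1 ^ m * z a) ^ 2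

/-- finiteness of the weighted norm -/
def Ws (m : ℕ) (z : I0 → ℝ) : Prop := Summable fun a : I0 => (pw a.1 ^ m * z a) ^ 2

theorem pw_neg (k : Fq) : pw (-k) = pw k := by unfold pw; rw [l1_neg]

theorem rI_pow (a : I0) (k : ℕ) : rI a ^ k = pw a.1 ^ (3 * k) := by
  unfold rI; rw [← pow_mul]

theorem sk_iff (k : ℕ) (z : I0 → ℝ) : Sk rI k z ↔ Ws (3 * k) z := by
  unfold Sk Ws
  simp_rw [rI_pow]

theorem nk_eq (k : ℕ) (z : I0 → ℝ) : Pool.Agent.Y5.E.nk rI k z = W (3 * k) z := by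
  unfold Pool.Agent.Y5.E.nk W
  simp_rw [rI_pow]

theorem W_nonneg (m : ℕ) (z : I0 → ℝ) : 0 ≤ W m z := tsum_nonneg fun _ => sq_nonneg _

theorem Ws.mono {m n : ℕ} {z : I0 → ℝ} (h : Ws m z) (hn : n ≤ m) : Ws n z := by
  refine Summable.of_nonneg_of_le (fun a => sq_nonneg _) (fun a => ?_) h
  rw [mul_pow, mul_pow]
  apply mul_le_mul_of_nonneg_right _ (sq_nonneg _)
  exact pow_le_pow_left₀ (pow_pos (pw_pos _) _).le
    (pow_le_pow_right₀ (one_le_pw _) hn) 2

/-- domination -/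
theorem Ws.of_le {m : ℕ} {z y : I0 → ℝ} (h : Ws m z) (hy : ∀ a, |y a| ≤ |z a|) : Ws m y := by
  refine Summable.of_nonneg_of_le (fun a => sq_nonneg _) (fun a => ?_) h
  rw [mul_pow, mul_pow]
  apply mul_le_mul_of_nonneg_left _ (sq_nonneg _)
  exact sq_le_sq.2 (hy a)

theorem W_le {m : ℕ} {z y : I0 → ℝ} (h : Ws m z) (hy : ∀ a, |y a| ≤ |z a|) : W m y ≤ W m z := by
  refine (h.of_le hy).tsum_le_tsum (fun a => ?_) h
  rw [mul_pow, mul_pow]
  apply mul_le_mul_of_nonneg_left _ (sq_nonneg _)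
  exact sq_le_sq.2 (hy a)

/-! ### norms -/

theorem c3_sq (x : C3) : ‖x‖ ^ 2 ≤ ∑ i, ‖x i‖ ^ 2 := by
  have h0 : 0 ≤ ∑ i, ‖x i‖ ^ 2 := Finset.sum_nonneg fun _ _ => sq_nonneg _
  have h1 : ‖x‖ ≤ √(∑ i, ‖x i‖ ^ 2) := by
    rw [pi_norm_le_iff_of_nonneg (Real.sqrt_nonneg _)]
    intro i
    apply Real.le_sqrt_of_sq_le
    exact Finset.single_le_sum (f := fun i => ‖x i‖ ^ 2) (fun _ _ => sq_nonneg _)
      (Finset.mem_univ i)
  calc ‖x‖ ^ 2 ≤ √(∑ i, ‖x i‖ ^ 2) ^ 2 := pow_le_pow_left₀ (norm_nonneg _) h1 2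
    _ = _ := Real.sq_sqrt h0

theorem hx_sq (z : I0 → ℝ) (k : Fq) (i : Fin 3) :
    ‖hx z k i‖ ^ 2 = (z (k, i) ^ 2 + z (-k, i) ^ 2) / 2 := by
  rw [Complex.sq_norm, Complex.normSq_apply]
  unfold hx
  simp only
  ring

theorem hx_add (z y : I0 → ℝ) : hx (z + y) = hx z + hx y := by
  funext k i
  unfold hx
  apply Complex.ext <;> simp <;> ring

theorem hx_smul (r : ℝ) (z : I0 → ℝ) : hx (r • z) = r • hx z := by
  funext k i
  unfold hx
  apply Complex.ext <;> simp <;> ring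

theorem hx_sub (z y : I0 → ℝ) : hx (z - y) = hx z - hx y := by
  funext k i
  unfold hx
  apply Complex.ext <;> simp <;> ring

theorem hx_zero : hx 0 = 0 := by
  have := hx_smul 0 0
  rwa [zero_smul, zero_smul] at this

theorem hz_add (x y : Fq → C3) (a : I0) : hz (x + y) a = hz x a + hz y a := by
  unfold hz; simp; ring

theorem hz_smul (r : ℝ) (x : Fq → C3) (a : I0) : hz (r • x) a = r * hz x a := by
  unfold hz; simp; ring

theorem hz_abs (x : Fq → C3) (a : I0) : |hz x a| ≤ 2 * ‖x a.1‖ := by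
  unfold hz
  have h1 := Complex.abs_re_le_norm (x a.1 a.2)
  have h2 := Complex.abs_im_le_norm (x a.1 a.2)
  have h3 := norm_le_pi_norm (x a.1) a.2
  have h4 := abs_sub (x a.1 a.2).re (x a.1 a.2).im
  linarith

theorem nn_hx {m : ℕ} {z : I0 → ℝ} (h : Ws m z) :
    (Summable fun k => (pw k ^ m * ‖hx z k‖) ^ 2) ∧ nn m (hx z) ≤ W m z := by
  set A : Fq → ℝ := fun k => ∑ i, (pw k ^ m * z (k, i)) ^ 2 with hA
  have h1 : HasSum A (W m z) := h.hasSum.prod_fiberwise fun k => hasSum_fintype _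
  have h2 : HasSum (fun k => A (-k)) (W m z) := (Equiv.neg Fq).hasSum_iff.2 h1
  have h3 : HasSum (fun k => (A k + A (-k)) / 2) (W m z) := by
    have := (h1.add h2).div_const 2
    rwa [add_self_div_two] at this
  have h4 : ∀ k, (pw k ^ m * ‖hx z k‖) ^ 2 ≤ (A k + A (-k)) / 2 := by
    intro k
    rw [mul_pow]
    have e : (A k + A (-k)) / 2 = (pw k ^ m) ^ 2 * ∑ i, ‖hx z k i‖ ^ 2 := by
      simp only [hA, pw_neg, hx_sq]
      rw [← Finset.sum_add_distrib, Finset.sum_div, Finset.mul_sum]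
      exact Finset.sum_congr rfl fun i _ => by ring
    rw [e]
    exact mul_le_mul_of_nonneg_left (c3_sq _) (sq_nonneg _)
  have h5 : Summable fun k => (pw k ^ m * ‖hx z k‖) ^ 2 :=
    Summable.of_nonneg_of_le (fun k => sq_nonneg _) h4 h3.summable
  refine ⟨h5, ?_⟩
  unfold nn
  rw [← h3.tsum_eq]
  exact h5.tsum_le_tsum h4 h3.summable

theorem rp_hx {z : I0 → ℝ} (h : ∀ m, Ws m z) : Rp (hx z) := by
  intro m
  refine ⟨√(nn m (hx z)), fun k => ?_⟩
  apply Real.le_sqrt_of_sq_le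
  exact (nn_hx (h m)).1.le_tsum k fun _ _ => sq_nonneg _

theorem Rp.add {x y : Fq → C3} (hx : Rp x) (hy : Rp y) : Rp (x + y) := by
  intro m
  obtain ⟨C, hC⟩ := hx m
  obtain ⟨D, hD⟩ := hy m
  refine ⟨C + D, fun k => ?_⟩
  have h1 := hC k
  have h2 := hD k
  have h3 := mul_le_mul_of_nonneg_left (norm_add_le (x k) (y k)) (pow_pos (pw_pos k) m).le
  rw [Pi.add_apply]
  linarith

theorem Rp.smul {x : Fq → C3} (r : ℝ) (hx : Rp x) : Rp (r • x) := by
  intro m
  obtain ⟨C, hC⟩ := hx m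
  refine ⟨|r| * C, fun k => ?_⟩
  rw [Pi.smul_apply, norm_smul, Real.norm_eq_abs]
  calc pw k ^ m * (|r| * ‖x k‖) = |r| * (pw k ^ m * ‖x k‖) := by ring
    _ ≤ |r| * C := mul_le_mul_of_nonneg_left (hC k) (abs_nonneg _)

theorem Rp.zero : Rp (0 : Fq → C3) := fun m => ⟨0, fun k => by simp⟩

theorem Rp.sum {ι : Type*} {s : Finset ι} {f : ι → Fq → C3} (h : ∀ i ∈ s, Rp (f i)) :
    Rp (∑ i ∈ s, f i) := by
  classical
  induction s using Finset.induction_on with
  | empty => rw [Finset.sum_empty]; exact Rp.zero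
  | insert a s ha ih =>
    rw [Finset.sum_insert ha]
    exact Rp.add (h a (Finset.mem_insert_self _ _))
      (ih fun i hi => h i (Finset.mem_insert_of_mem hi))

/-! ### finite sums -/

variable {N : (Fq → C3) → (Fq → C3) → Fq → C3}

theorem N_sum_left (hN : Nop N) {ι : Type*} (s : Finset ι) (z : ι → ℝ) (f : ι → Fq → C3)
    (hf : ∀ i, Rp (f i)) {y : Fq → C3} (hy : Rp y) :
    N (∑ i ∈ s, z i • f i) y = ∑ i ∈ s, z i • N (f i) y := by
  classical
  induction s using Finset.induction_on with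
  | empty =>
    have := hN.smul_left 0 0 y Rp.zero hy
    rw [zero_smul, zero_smul] at this
    simpa using this
  | insert a s ha ih =>
    rw [Finset.sum_insert ha, Finset.sum_insert ha,
      hN.add_left _ _ _ (Rp.smul _ (hf a)) (Rp.sum fun i _ => Rp.smul _ (hf i)) hy, ih,
      hN.smul_left _ _ _ (hf a) hy]

theorem N_sum_right (hN : Nop N) {ι : Type*} (s : Finset ι) (z : ι → ℝ) (f : ι → Fq → C3)
    (hf : ∀ i, Rp (f i)) {x : Fq → C3} (hx : Rp x) :
    N x (∑ i ∈ s, z i • f i) = ∑ i ∈ s, z i • N x (f i) := by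
  classical
  induction s using Finset.induction_on with
  | empty =>
    have := hN.smul_right 0 x 0 hx Rp.zero
    rw [zero_smul, zero_smul] at this
    simpa using this
  | insert a s ha ih =>
    rw [Finset.sum_insert ha, Finset.sum_insert ha,
      hN.add_right _ _ _ hx (Rp.smul _ (hf a)) (Rp.sum fun i _ => Rp.smul _ (hf i)), ih,
      hN.smul_right _ _ _ hx (hf a)]

/-- truncation -/
noncomputable def tr (F : Finset I0) (z : I0 → ℝ) : I0 → ℝ := fun a => if a ∈ F then z a else 0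

theorem tr_eq (F : Finset I0) (z : I0 → ℝ) : tr F z = ∑ a ∈ F, z a • Pi.single a (1 : ℝ) := by
  funext b
  unfold tr
  rw [Finset.sum_apply]
  simp [Pi.single_apply]

theorem tr_abs (F : Finset I0) (z : I0 → ℝ) (a : I0) : |tr F z a| ≤ |z a| := by
  unfold tr
  split_ifs
  · exact le_rfl
  · rw [abs_zero]; exact abs_nonneg _

theorem tr_ws (F : Finset I0) (z : I0 → ℝ) (m : ℕ) : Ws m (tr F z) := by
  refine summable_of_ne_finset_zero (s := F) fun a ha => ?_
  unfold tr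
  rw [if_neg ha, mul_zero]
  simp

theorem single_ws (a : I0) (m : ℕ) : Ws m (Pi.single a (1 : ℝ)) := by
  refine summable_of_ne_finset_zero (s := {a}) fun b hb => ?_
  rw [Pi.single_eq_of_ne (by simpa using hb)]
  simp

theorem single_W (a : I0) : W 0 (Pi.single a (1 : ℝ)) = 1 := by
  unfold W
  rw [tsum_eq_single a fun b hb => by rw [Pi.single_eq_of_ne hb]; simp]
  simp

theorem hx_sum (F : Finset I0) (z : I0 → ℝ) :
    hx (tr F z) = ∑ a ∈ F, z a • hx (Pi.single a (1 : ℝ)) := by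
  classical
  rw [tr_eq]
  induction F using Finset.induction_on with
  | empty => rw [Finset.sum_empty, Finset.sum_empty, hx_zero]
  | insert a s ha ih => rw [Finset.sum_insert ha, Finset.sum_insert ha, hx_add, hx_smul, ih]

theorem hz_sum {ι : Type*} (s : Finset ι) (f : ι → Fq → C3) (a : I0) :
    hz (∑ i ∈ s, f i) a = ∑ i ∈ s, hz (f i) a := by
  classical
  induction s using Finset.induction_on with
  | empty => simp [hz]
  | insert b s hb ih => rw [Finset.sum_insert hb, Finset.sum_insert hb, hz_add, ih]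

/-- the double sum for truncations -/
theorem fin_sum (hN : Nop N) (F : Finset I0) (z y : I0 → ℝ) (i : I0) :
    ∑ p ∈ F ×ˢ F, ck N i p.1 p.2 * z p.1 * y p.2 = hz (N (hx (tr F z)) (hx (tr F y))) i := by
  have hr : ∀ a : I0, Rp (hx (Pi.single a (1 : ℝ))) := fun a => rp_hx (single_ws a)
  rw [hx_sum F z, N_sum_left hN F z _ hr (rp_hx (tr_ws F y)), hz_sum, Finset.sum_product]
  refine Finset.sum_congr rfl fun a _ => ?_
  rw [hz_smul, hx_sum F y, N_sum_right hN F y _ hr (hr a), hz_sum, Finset.mul_sum]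
  refine Finset.sum_congr rfl fun b _ => ?_
  rw [hz_smul]
  unfold ck
  ring

/-! ### summability -/

theorem pw_inv_summable : Summable fun k : Fq => 1 / pw k ^ 6 := by
  refine Summable.of_nonneg_of_le (fun k => by have := pw_pos k; positivity) (fun k => ?_)
    H459R3.NS.summable_K3
  have h : ∀ j, 1 + (k j : ℝ) ^ 2 ≤ pw k ^ 2 := by
    intro j
    have h1 : |(k j : ℝ)| ≤ l1 k :=
      Finset.single_le_sum (f := fun j => |(k j : ℝ)|) (fun _ _ => abs_nonneg _)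
        (Finset.mem_univ j)
    have h2 := abs_nonneg (k j : ℝ)
    unfold pw
    rw [← sq_abs (k j : ℝ)]
    nlinarith
  have h0 := h 0
  have h1 := h 1
  have h2 := h 2
  have e : 1 / (1 + (k 0 : ℝ) ^ 2) * (1 / (1 + (k 1 : ℝ) ^ 2) * (1 / (1 + (k 2 : ℝ) ^ 2)))
      = 1 / ((1 + (k 0 : ℝ) ^ 2) * ((1 + (k 1 : ℝ) ^ 2) * (1 + (k 2 : ℝ) ^ 2))) := by
    field_simp
  rw [e]
  apply one_div_le_one_div_of_le (by positivity)
  calc (1 + (k 0 : ℝ) ^ 2) * ((1 + (k 1 : ℝ) ^ 2) * (1 + (k 2 : ℝ) ^ 2))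
      ≤ pw k ^ 2 * (pw k ^ 2 * pw k ^ 2) := by gcongr
    _ = pw k ^ 6 := by ring

theorem l1_summable {z : I0 → ℝ} (h : Ws 3 z) : Summable fun a => |z a| := by
  have h1 : Summable fun a : I0 => 1 / pw a.1 ^ 6 * (1 : ℝ) :=
    pw_inv_summable.mul_of_nonneg (g := fun _ : Fin 3 => (1 : ℝ)) (summable_of_finite_support
      (Set.toFinite _)) (fun k => by have := pw_pos k; positivity) fun _ => zero_le_one
  refine Summable.of_nonneg_of_le (fun a => abs_nonneg _) (fun a => ?_) ((h.add h1).div_const 2)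
  have hp := pw_pos a.1
  have e : |z a| = (pw a.1 ^ 3 * |z a|) * (1 / pw a.1 ^ 3) := by field_simp
  have e2 : (1 / pw a.1 ^ 3) ^ 2 = 1 / pw a.1 ^ 6 := by rw [one_div_pow, ← pow_mul]
  have e3 : (pw a.1 ^ 3 * |z a|) ^ 2 = (pw a.1 ^ 3 * z a) ^ 2 := by
    rw [mul_pow, mul_pow, sq_abs]
  have h2 := sq_nonneg (pw a.1 ^ 3 * |z a| - 1 / pw a.1 ^ 3)
  rw [mul_one, e, ← e2, ← e3]
  nlinarith

theorem ck_bdd (hN : Nop N) (i : I0) : ∃ C, 0 ≤ C ∧ ∀ a b, |ck N i a b| ≤ C := by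
  obtain ⟨C, hC0, hC⟩ := hN.loc i.1
  refine ⟨2 * C, by positivity, fun a b => ?_⟩
  unfold ck
  refine (hz_abs _ _).trans ?_
  have h1 := hC _ _ (rp_hx (single_ws a)) (rp_hx (single_ws b))
  have h2 : ∀ a : I0, √(nn 0 (hx (Pi.single a (1 : ℝ)))) ≤ 1 := by
    intro a
    refine Real.sqrt_le_one.2 ?_
    exact (nn_hx (single_ws a 0)).2.trans (single_W a).le
  have h3 := h2 a
  have h4 := h2 b
  have h5 := Real.sqrt_nonneg (nn 0 (hx (Pi.single a (1 : ℝ))))
  have h6 := Real.sqrt_nonneg (nn 0 (hx (Pi.single b (1 : ℝ))))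
  have h7 : C * √(nn 0 (hx (Pi.single a (1 : ℝ)))) * √(nn 0 (hx (Pi.single b (1 : ℝ))))
      ≤ C * 1 * 1 := by gcongr
  linarith

theorem ck_summ (hN : Nop N) (i : I0) {z y : I0 → ℝ} (hz : Ws 3 z) (hy : Ws 3 y) :
    Summable fun p : I0 × I0 => ck N i p.1 p.2 * z p.1 * y p.2 := by
  obtain ⟨C, hC0, hC⟩ := ck_bdd hN i
  have h1 := (l1_summable hz).mul_of_nonneg (l1_summable hy) (fun _ => abs_nonneg _)
    fun _ => abs_nonneg _
  refine Summable.of_norm_bounded (g := fun p : I0 × I0 => C * (|z p.1| * |y p.2|))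
    (h1.mul_left C) fun p => ?_
  rw [Real.norm_eq_abs, abs_mul, abs_mul, mul_assoc]
  exact mul_le_mul_of_nonneg_right (hC _ _) (by positivity)

theorem tendsto_prod_self : Tendsto (fun F : Finset I0 => F ×ˢ F) atTop atTop := by
  classical
  refine tendsto_atTop_atTop.2 fun P => ⟨P.image Prod.fst ∪ P.image Prod.snd, fun F hF => ?_⟩
  intro p hp
  rw [Finset.mem_product]
  exact ⟨hF (Finset.mem_union_left _ (Finset.mem_image_of_mem _ hp)),
    hF (Finset.mem_union_right _ (Finset.mem_image_of_mem _ hp))⟩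

theorem bl_tendsto (hN : Nop N) (i : I0) {z y : I0 → ℝ} (hz' : Ws 3 z) (hy : Ws 3 y) :
    Tendsto (fun F => hz (N (hx (tr F z)) (hx (tr F y))) i) atTop (𝓝 (bl (ck N) z y i)) := by
  have h1 : Tendsto (fun s : Finset (I0 × I0) => ∑ p ∈ s, ck N i p.1 p.2 * z p.1 * y p.2) atTop
      (𝓝 (bl (ck N) z y i)) := (ck_summ hN i hz' hy).hasSum
  have h2 := h1.comp tendsto_prod_self
  refine h2.congr fun F => ?_
  exact fin_sum hN F z y i

theorem nn_tr {m : ℕ} {z : I0 → ℝ} (h : Ws m z) (F : Finset I0) : nn m (hx (tr F z)) ≤ W m z :=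
  (nn_hx (tr_ws F z m)).2.trans (W_le h (tr_abs F z))

theorem nn_nonneg (m : ℕ) (x : Fq → C3) : 0 ≤ nn m x := tsum_nonneg fun _ => sq_nonneg _

theorem div_le_div_c {c t : ℝ} (hc : 0 < c) (ht : 0 ≤ t) {a : ℝ} (ha : 0 ≤ a) :
    a / (1 + c * t) ≤ max 1 (1 / c) * (a / (1 + t)) := by
  have h1 : (1 : ℝ) ≤ max 1 (1 / c) := le_max_left _ _
  have h2 : 1 / c ≤ max 1 (1 / c) := le_max_right _ _
  have h3 : 1 ≤ max 1 (1 / c) * c := by
    rw [div_le_iff₀ hc] at h2
    exact h2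
  rw [div_le_iff₀ (by positivity)]
  have h4 : 1 + t ≤ max 1 (1 / c) * (1 + c * t) := by nlinarith
  have h5 : 0 ≤ a / (1 + t) := by positivity
  calc a = a / (1 + t) * (1 + t) := by field_simp
    _ ≤ a / (1 + t) * (max 1 (1 / c) * (1 + c * t)) := mul_le_mul_of_nonneg_left h4 h5
    _ = _ := by ring

/-- the estimate for finite sets of indices and truncations -/
theorem est_fin (hN : Nop N) {c : ℝ} (hc : 0 < c) (m : ℕ) : ∃ C, 0 ≤ C ∧ ∀ x y, Rp x → Rp y →
    ∀ S : Finset I0, ∑ i ∈ S, (rI i ^ (m + 1) * hz (N x y) i) ^ 2 / (1 + dI c i)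
      ≤ C * (nn (3 * (m + 1)) x * nn 3 y + nn 3 x * nn (3 * (m + 1)) y) := by
  classical
  obtain ⟨C, hC0, hC⟩ := hN.est m
  refine ⟨12 * max 1 (1 / c) * C, by positivity, fun x y hx hy S => ?_⟩
  have hd : ∀ i : I0, 0 < 1 + dI c i := fun i => by
    unfold dI
    have := sq_nonneg (Pool.Agent.H356R3.NS.nk i.1)
    positivity
  have hnn : ∀ i : I0, 0 ≤ (rI i ^ (m + 1) * hz (N x y) i) ^ 2 / (1 + dI c i) := fun i => by
    have := hd i
    positivity
  have h1 : S ⊆ (S.image Prod.fst) ×ˢ (Finset.univ : Finset (Fin 3)) := by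
    intro p hp
    rw [Finset.mem_product]
    exact ⟨Finset.mem_image_of_mem _ hp, Finset.mem_univ _⟩
  refine (Finset.sum_le_sum_of_subset_of_nonneg h1 fun i _ _ => hnn i).trans ?_
  rw [Finset.sum_product]
  have h2 : ∀ k : Fq, ∑ j : Fin 3, (rI (k, j) ^ (m + 1) * hz (N x y) (k, j)) ^ 2 / (1 + dI c (k, j))
      ≤ 12 * max 1 (1 / c) * ((pw k ^ (3 * (m + 1)) * ‖N x y k‖) ^ 2
        / (1 + Pool.Agent.H356R3.NS.nk k ^ 2)) := by
    intro k
    have h3 : ∀ j : Fin 3, (rI (k, j) ^ (m + 1) * hz (N x y) (k, j)) ^ 2 / (1 + dI c (k, j))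
        ≤ 4 * max 1 (1 / c) * ((pw k ^ (3 * (m + 1)) * ‖N x y k‖) ^ 2
        / (1 + Pool.Agent.H356R3.NS.nk k ^ 2)) := by
      intro j
      have h4 : (rI (k, j) ^ (m + 1) * hz (N x y) (k, j)) ^ 2
          ≤ 4 * (pw k ^ (3 * (m + 1)) * ‖N x y k‖) ^ 2 := by
        rw [rI_pow]
        have h5 := hz_abs (N x y) (k, j)
        have h6 : (hz (N x y) (k, j)) ^ 2 ≤ (2 * ‖N x y k‖) ^ 2 := by
          rw [← sq_abs]
          exact pow_le_pow_left₀ (abs_nonneg _) h5 2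
        calc (pw k ^ (3 * (m + 1)) * hz (N x y) (k, j)) ^ 2
            = (pw k ^ (3 * (m + 1))) ^ 2 * (hz (N x y) (k, j)) ^ 2 := mul_pow _ _ _
          _ ≤ (pw k ^ (3 * (m + 1))) ^ 2 * (2 * ‖N x y k‖) ^ 2 :=
              mul_le_mul_of_nonneg_left h6 (sq_nonneg _)
          _ = _ := by ring
      have h7 := div_le_div_of_nonneg_right h4 (hd (k, j)).le
      refine h7.trans ?_
      unfold dI
      have h8 := div_le_div_c hc (sq_nonneg (Pool.Agent.H356R3.NS.nk k))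
        (a := 4 * (pw k ^ (3 * (m + 1)) * ‖N x y k‖) ^ 2) (by positivity)
      refine h8.trans (le_of_eq ?_)
      ring
    refine (Finset.sum_le_sum fun j _ => h3 j).trans (le_of_eq ?_)
    rw [Finset.sum_const, Finset.card_univ, Fintype.card_fin]
    simp only [nsmul_eq_mul]
    push_cast
    ring
  refine (Finset.sum_le_sum fun k _ => h2 k).trans ?_
  rw [← Finset.mul_sum]
  have h9 := mul_le_mul_of_nonneg_left (hC x y hx hy (S.image Prod.fst))
    (by positivity : 0 ≤ 12 * max 1 (1 / c))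
  refine h9.trans (le_of_eq ?_)
  ring

theorem adm_adm (hN : Nop N) {c : ℝ} (hc : 0 < c) : Adm (dI c) rI (ck N) where
  d0 := fun i => by
    unfold dI
    have := sq_nonneg (Pool.Agent.H356R3.NS.nk i.1)
    positivity
  r1 := fun i => one_le_pow₀ (one_le_pw _)
  rfin := fun R => by
    have hfin : (Set.Icc (fun _ : Fin 3 => -⌈R⌉) (fun _ : Fin 3 => ⌈R⌉)).Finite :=
      Set.finite_Icc _ _
    refine (hfin.prod (Set.finite_univ (α := Fin 3))).subset fun a ha => ?_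
    refine ⟨?_, Set.mem_univ _⟩
    have h1 : pw a.1 ≤ R := by
      have h2 : pw a.1 ≤ pw a.1 ^ 3 := by
        have := one_le_pw a.1
        calc pw a.1 = pw a.1 ^ 1 := (pow_one _).symm
          _ ≤ pw a.1 ^ 3 := pow_le_pow_right₀ this (by norm_num)
      exact h2.trans ha
    have h3 : ∀ j, |a.1 j| ≤ ⌈R⌉ := by
      intro j
      have h4 : |(a.1 j : ℝ)| ≤ l1 a.1 :=
        Finset.single_le_sum (f := fun j => |(a.1 j : ℝ)|) (fun _ _ => abs_nonneg _)
          (Finset.mem_univ j)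
      have h5 : |(a.1 j : ℝ)| ≤ R := by
        unfold pw at h1
        linarith
      have h6 : ((|a.1 j| : ℤ) : ℝ) ≤ (⌈R⌉ : ℝ) := by
        push_cast
        exact h5.trans (Int.le_ceil R)
      exact_mod_cast h6
    exact ⟨fun j => (abs_le.1 (h3 j)).1, fun j => (abs_le.1 (h3 j)).2⟩
  summ := fun i z y hz' hy => ck_summ hN i ((sk_iff 1 z).1 hz') ((sk_iff 1 y).1 hy)
  loc := fun i => by
    obtain ⟨C, hC0, hC⟩ := hN.loc i.1
    refine ⟨2 * C, fun z y hz' hy => ?_⟩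
    have h1 : Ws 3 z := (sk_iff 1 z).1 hz'
    have h2 : Ws 3 y := (sk_iff 1 y).1 hy
    have h3 := (bl_tendsto hN i h1 h2).abs
    refine le_of_tendsto h3 (Eventually.of_forall fun F => ?_)
    have h4 := hC _ _ (rp_hx (tr_ws F z)) (rp_hx (tr_ws F y))
    have e : ∀ z : I0 → ℝ, ∑' a, z a ^ 2 = W 0 z := fun z => by
      unfold W; simp
    rw [e z, e y]
    have h5 := Real.sqrt_le_sqrt (nn_tr (h1.mono (Nat.zero_le 3)) F)
    have h6 := Real.sqrt_le_sqrt (nn_tr (h2.mono (Nat.zero_le 3)) F)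
    refine (hz_abs _ _).trans ?_
    calc 2 * ‖N (hx (tr F z)) (hx (tr F y)) i.1‖
        ≤ 2 * (C * √(nn 0 (hx (tr F z))) * √(nn 0 (hx (tr F y)))) := by linarith
      _ ≤ 2 * (C * √(W 0 z) * √(W 0 y)) := by gcongr
      _ = _ := by ring
  est := fun m => by
    obtain ⟨C, hC0, hC⟩ := est_fin hN hc m
    refine ⟨C, fun z y hz' hy => ?_⟩
    have h1 : Ws (3 * (m + 1)) z := (sk_iff _ z).1 hz'
    have h2 : Ws (3 * (m + 1)) y := (sk_iff _ y).1 hy
    have h13 : Ws 3 z := h1.mono (by omega)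
    have h23 : Ws 3 y := h2.mono (by omega)
    have e1 : Pool.Agent.Y5.E.nk rI 1 z = W 3 z := nk_eq 1 z
    have e2 : Pool.Agent.Y5.E.nk rI 1 y = W 3 y := nk_eq 1 y
    rw [nk_eq (m + 1) z, nk_eq (m + 1) y, e1, e2]
    set B : ℝ := C * (W (3 * (m + 1)) z * W 3 y + W 3 z * W (3 * (m + 1)) y) with hB
    have hd : ∀ i : I0, 0 < 1 + dI c i := fun i => by
      unfold dI
      have := sq_nonneg (Pool.Agent.H356R3.NS.nk i.1)
      positivity
    have key : ∀ S : Finset I0,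
        ∑ i ∈ S, (rI i ^ (m + 1) * bl (ck N) z y i) ^ 2 / (1 + dI c i) ≤ B := by
      intro S
      have h3 : Tendsto (fun F => ∑ i ∈ S,
          (rI i ^ (m + 1) * hz (N (hx (tr F z)) (hx (tr F y))) i) ^ 2 / (1 + dI c i)) atTop
          (𝓝 (∑ i ∈ S, (rI i ^ (m + 1) * bl (ck N) z y i) ^ 2 / (1 + dI c i))) :=
        tendsto_finsetSum _ fun i _ =>
          (((bl_tendsto hN i h13 h23).const_mul _).pow 2).div_const _
      refine le_of_tendsto h3 (Eventually.of_forall fun F => ?_)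
      refine (hC _ _ (rp_hx (tr_ws F z)) (rp_hx (tr_ws F y)) S).trans ?_
      have a1 := nn_tr h1 F
      have a2 := nn_tr h2 F
      have a3 := nn_tr h13 F
      have a4 := nn_tr h23 F
      have b1 := nn_nonneg (3 * (m + 1)) (hx (tr F z))
      have b2 := nn_nonneg (3 * (m + 1)) (hx (tr F y))
      have b3 := nn_nonneg 3 (hx (tr F z))
      have b4 := nn_nonneg 3 (hx (tr F y))
      have c1 := W_nonneg (3 * (m + 1)) z
      have c3 := W_nonneg 3 z
      rw [hB]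
      gcongr
    have hnn : ∀ i : I0, 0 ≤ (rI i ^ (m + 1) * bl (ck N) z y i) ^ 2 / (1 + dI c i) := fun i => by
      have := hd i
      positivity
    have hs := summable_of_sum_le hnn key
    exact ⟨hs, hs.tsum_le_of_sum_le key⟩

theorem tail_tendsto {z : I0 → ℝ} (h : Ws 0 z) :
    Tendsto (fun F : Finset I0 => W 0 (z - tr F z)) atTop (𝓝 0) := by
  have h1 : ∀ F : Finset I0, W 0 (z - tr F z) = W 0 z - ∑ a ∈ F, (pw a.1 ^ 0 * z a) ^ 2 := by
    intro F
    have e : (fun a : I0 => (pw a.1 ^ 0 * (z - tr F z) a) ^ 2)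
        = fun a : I0 => (pw a.1 ^ 0 * z a) ^ 2 - (pw a.1 ^ 0 * tr F z a) ^ 2 := by
      funext a
      simp only [Pi.sub_apply, tr]
      split_ifs <;> simp
    unfold W
    rw [e, Summable.tsum_sub h (tr_ws F z 0)]
    congr 1
    rw [tsum_eq_sum (s := F) fun a ha => by unfold tr; rw [if_neg ha, mul_zero]; simp]
    exact Finset.sum_congr rfl fun a ha => by unfold tr; rw [if_pos ha]
  simp_rw [h1]
  have h2 : Tendsto (fun F : Finset I0 => ∑ a ∈ F, (pw a.1 ^ 0 * z a) ^ 2) atTop (𝓝 (W 0 z)) :=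
    h.hasSum
  have h3 := h2.const_sub (W 0 z)
  rwa [sub_self] at h3

theorem adm_eq (hN : Nop N) {z y : I0 → ℝ} (hz' : ∀ m, Sk rI m z) (hy : ∀ m, Sk rI m y) (i : I0) :
    bl (ck N) z y i = hz (N (hx z) (hx y)) i := by
  have hzw : ∀ m, Ws m z := fun m => ((sk_iff m z).1 (hz' m)).mono (by omega)
  have hyw : ∀ m, Ws m y := fun m => ((sk_iff m y).1 (hy m)).mono (by omega)
  have hzp := rp_hx hzw
  have hyp := rp_hx hyw
  refine tendsto_nhds_unique (bl_tendsto hN i (hzw 3) (hyw 3)) ?_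
  obtain ⟨C, hC0, hC⟩ := hN.loc i.1
  rw [tendsto_iff_norm_sub_tendsto_zero]
  have hlim : Tendsto (fun F : Finset I0 => 2 * (C * √(W 0 (z - tr F z)) * √(W 0 y)
      + C * √(W 0 z) * √(W 0 (y - tr F y)))) atTop (𝓝 0) := by
    have t1 := (tail_tendsto (hzw 0)).sqrt
    have t2 := (tail_tendsto (hyw 0)).sqrt
    rw [Real.sqrt_zero] at t1 t2
    have t3 := (((t1.const_mul C).mul_const (√(W 0 y))).add (t2.const_mul (C * √(W 0 z)))).const_mul 2
    simpa using t3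
  refine squeeze_zero (fun F => norm_nonneg _) (fun F => ?_) hlim
  have hwz : ∀ m, Ws m (z - tr F z) := fun m => (hzw m).of_le fun a => by
    simp only [Pi.sub_apply, tr]
    split_ifs <;> simp
  have hwy : ∀ m, Ws m (y - tr F y) := fun m => (hyw m).of_le fun a => by
    simp only [Pi.sub_apply, tr]
    split_ifs <;> simp
  have e1 : N (hx z) (hx y) = N (hx (z - tr F z)) (hx y) + N (hx (tr F z)) (hx (y - tr F y))
      + N (hx (tr F z)) (hx (tr F y)) := by
    rw [add_assoc, ← hN.add_right _ _ _ (rp_hx (tr_ws F z)) (rp_hx hwy) (rp_hx (tr_ws F y)),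
      ← hx_add, sub_add_cancel, ← hN.add_left _ _ _ (rp_hx hwz) (rp_hx (tr_ws F z)) hyp, ← hx_add,
      sub_add_cancel]
  have e2 : hz (N (hx (tr F z)) (hx (tr F y))) i - hz (N (hx z) (hx y)) i
      = -(hz (N (hx (z - tr F z)) (hx y)) i + hz (N (hx (tr F z)) (hx (y - tr F y))) i) := by
    rw [e1, hz_add, hz_add]
    ring
  rw [e2, norm_neg, Real.norm_eq_abs]
  refine (abs_add_le _ _).trans ?_
  have a1 := (hz_abs (N (hx (z - tr F z)) (hx y)) i)
  have a2 := (hz_abs (N (hx (tr F z)) (hx (y - tr F y))) i)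
  have b1 := hC _ _ (rp_hx hwz) hyp
  have b2 := hC _ _ (rp_hx (tr_ws F z)) (rp_hx hwy)
  have c1 := Real.sqrt_le_sqrt (nn_hx (hwz 0)).2
  have c2 := Real.sqrt_le_sqrt (nn_hx (hyw 0)).2
  have c3 := Real.sqrt_le_sqrt (nn_tr (hzw 0) F)
  have c4 := Real.sqrt_le_sqrt (nn_hx (hwy 0)).2
  have d1 : C * √(nn 0 (hx (z - tr F z))) * √(nn 0 (hx y))
      ≤ C * √(W 0 (z - tr F z)) * √(W 0 y) := by gcongr
  have d2 : C * √(nn 0 (hx (tr F z))) * √(nn 0 (hx (y - tr F y)))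
      ≤ C * √(W 0 z) * √(W 0 (y - tr F y)) := by gcongr
  linarith

theorem adm : S_ADM := fun _N hN _c hc =>
  ⟨adm_adm hN hc, fun _z _y hz' hy i => adm_eq hN hz' hy i⟩

end Pool.Agent.N79.LE
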